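import Pool.Agent.L0h7.KN.MAIN

/-! # Regular rings, free groups and negative `K`-groups: definitions -/

set_option autoImplicit false

open CategoryTheory

noncomputable section

namespace Pool.Agent.L0h7.RG

open Pool.Agent.Y75.NK

/-- `M` has a resolution `0 → P → Aᵏ → ... → Aᵏ' → M → 0` of length `n` by finitely generated
projective modules, all free except possibly the last one. -/
def PD (A : Type) [Ring A] : ℕ → ∀ (M : Type) [AddCommGroup M] [Module A M], Prop
  | 0 => fun M _ _ => Module.Finite A M ∧ Module.Projective A M
  | n + 1 => fun M _ _ => ∃ (k : ℕ) (π : (Fin k → A) →ₗ[A] M), Function.Surjective π ∧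
      PD A n (LinearMap.ker π)

/-- `A` is left Noetherian and every finitely generated left `A`-module has a finite resolution by
finitely generated projective modules. -/
def Reg (A : Type) [Ring A] : Prop :=
  IsNoetherianRing A ∧ ∀ (M : Type) [AddCommGroup M] [Module A M], Module.Finite A M →
    ∃ n, PD A n M

/-- the identity matrix -/
def fr (A : Type) [Ring A] (k : ℕ) : Idem A := ⟨k, 1, by simp⟩

/-- `M` has a resolution as in `PD` whose Euler characteristic is `c`. -/
def EC (A : Type) [Ring A] : ℕ → ∀ (M : Type) [AddCommGroup M] [Module A M], K0 A → Prop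
  | 0 => fun M _ _ c => ∃ e : Idem A, Nonempty (M ≃ₗ[A] W e) ∧ c = cls e
  | n + 1 => fun M _ _ c => ∃ (k : ℕ) (π : (Fin k → A) →ₗ[A] M) (c' : K0 A),
      Function.Surjective π ∧ EC A n (LinearMap.ker π) c' ∧ c = cls (fr A k) - c'

/-- the inclusion of the coefficients -/
def io (A F : Type) [Ring A] [Group F] : A →+* MonoidAlgebra A F := MonoidAlgebra.singleOneRingHom

/-- the induced module `A[F] ⊗ N`: finitely supported functions `F → N` -/
def Ind (F N : Type) [AddCommGroup N] : Type := F →₀ N

instance (F N : Type) [AddCommGroup N] : AddCommGroup (Ind F N) :=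
  inferInstanceAs (AddCommGroup (F →₀ N))

/-- the element `w ⊗ x` -/
def ten {F N : Type} [AddCommGroup N] (w : F) (x : N) : Ind F N := Finsupp.single w x

/-- the action of the coefficients on the induced module -/
def coefHom (A F N : Type) [Ring A] [AddCommGroup N] [Module A N] :
    A →+* AddMonoid.End (F →₀ N) where
  toFun a := (Finsupp.mapRange.addMonoidHom (DistribSMul.toAddMonoidHom N a) :
    (F →₀ N) →+ (F →₀ N))
  map_one' := Finsupp.addHom_ext fun v x => by
    change Finsupp.mapRange (fun y : N => (1 : A) • y) (smul_zero _) (Finsupp.single v x) =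
      Finsupp.single v x
    rw [Finsupp.mapRange_single, one_smul]
  map_mul' a b := Finsupp.addHom_ext fun v x => by
    change Finsupp.mapRange (fun y : N => (a * b) • y) (smul_zero _) (Finsupp.single v x) =
      Finsupp.mapRange (fun y : N => a • y) (smul_zero _)
        (Finsupp.mapRange (fun y : N => b • y) (smul_zero _) (Finsupp.single v x))
    rw [Finsupp.mapRange_single, Finsupp.mapRange_single, Finsupp.mapRange_single, mul_smul]
  map_zero' := Finsupp.addHom_ext fun v x => by
    change Finsupp.mapRange (fun y : N => (0 : A) • y) (smul_zero _) (Finsupp.single v x) = 0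
    rw [Finsupp.mapRange_single, zero_smul, Finsupp.single_zero]
  map_add' a b := Finsupp.addHom_ext fun v x => by
    change Finsupp.mapRange (fun y : N => (a + b) • y) (smul_zero _) (Finsupp.single v x) =
      Finsupp.mapRange (fun y : N => a • y) (smul_zero _) (Finsupp.single v x) +
        Finsupp.mapRange (fun y : N => b • y) (smul_zero _) (Finsupp.single v x)
    rw [Finsupp.mapRange_single, Finsupp.mapRange_single, Finsupp.mapRange_single, add_smul,
      Finsupp.single_add]

/-- the action of the group on the induced module -/
def transHom (F N : Type) [Group F] [AddCommGroup N] : F →* AddMonoid.End (F →₀ N) where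
  toFun w := (Finsupp.mapDomain.addMonoidHom (fun v => w * v) : (F →₀ N) →+ (F →₀ N))
  map_one' := Finsupp.addHom_ext fun v x => by
    change Finsupp.mapDomain (fun v => 1 * v) (Finsupp.single v x) = Finsupp.single v x
    rw [Finsupp.mapDomain_single, one_mul]
  map_mul' w w' := Finsupp.addHom_ext fun v x => by
    change Finsupp.mapDomain (fun v => w * w' * v) (Finsupp.single v x) =
      Finsupp.mapDomain (fun v => w * v) (Finsupp.mapDomain (fun v => w' * v)
        (Finsupp.single v x))
    rw [Finsupp.mapDomain_single, Finsupp.mapDomain_single, Finsupp.mapDomain_single, mul_assoc]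

/-- the action of the group ring on the induced module as a ring homomorphism -/
def indHom (A F N : Type) [Ring A] [Group F] [AddCommGroup N] [Module A N] :
    MonoidAlgebra A F →+* AddMonoid.End (Ind F N) :=
  MonoidAlgebra.liftNCRingHom (coefHom A F N) (transHom F N) (by
    intro a w
    refine Finsupp.addHom_ext fun v x => ?_
    change Finsupp.mapRange (fun y : N => a • y) (smul_zero _)
        (Finsupp.mapDomain (fun v => w * v) (Finsupp.single v x)) =
      Finsupp.mapDomain (fun v => w * v)
        (Finsupp.mapRange (fun y : N => a • y) (smul_zero _) (Finsupp.single v x))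
    rw [Finsupp.mapDomain_single, Finsupp.mapRange_single, Finsupp.mapRange_single,
      Finsupp.mapDomain_single])

instance (A F N : Type) [Ring A] [Group F] [AddCommGroup N] [Module A N] :
    Module (MonoidAlgebra A F) (Ind F N) :=
  Module.compHom (Ind F N) (indHom A F N)

theorem single_smul_ten {A F N : Type} [Ring A] [Group F] [AddCommGroup N] [Module A N] (w v : F)
    (a : A) (x : N) : (MonoidAlgebra.single w a : MonoidAlgebra A F) • ten v x =
      ten (w * v) (a • x) := by
  change indHom A F N (MonoidAlgebra.single w a) (ten v x) = _
  have h : indHom A F N (MonoidAlgebra.single w a) = coefHom A F N a * transHom F N w :=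
    MonoidAlgebra.liftNC_single _ _ _ _
  rw [h]
  change Finsupp.mapRange (fun y : N => a • y) (smul_zero _)
    (Finsupp.mapDomain (fun v => w * v) (Finsupp.single v x)) = _
  rw [Finsupp.mapDomain_single, Finsupp.mapRange_single]
  rfl

end Pool.Agent.L0h7.RG
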