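import Pool.Agent.L0h7.RG.Defs

/-! # Regular rings, free groups and negative `K`-groups: statements

`W e` is the projective module of the idempotent matrix `e`, see `Pool/Agent/Y75/NK/Mod.lean`
(`W_sum`, `equiv_of_linearEquiv`). The modules prove `t_X : ... → S_X`, with the hypotheses given in
the docstring of `S_X`. -/

set_option autoImplicit false

open CategoryTheory

noncomputable section

namespace Pool.Agent.L0h7.RG

open Pool.Agent.Y75.NK Pool.Agent.L0h7.KN

/-- ECA (`t_ECA : S_ECA`). (2) for `n = 0`: the kernel of `Aᵏ → W e` is `W (1 - e)`. (3) for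
`n + 1`: a surjection `A^(k + e.n) → M × W e` has the kernel `ker π × W (1 - e)`; `W_sum`. -/
def S_ECA : Prop :=
  (∀ (A : Type) [Ring A] (n : ℕ) (M N : Type) [AddCommGroup M] [Module A M] [AddCommGroup N]
    [Module A N] (c : K0 A), Nonempty (M ≃ₗ[A] N) → EC A n M c → EC A n N c) ∧
  (∀ (A : Type) [Ring A] (n : ℕ) (M : Type) [AddCommGroup M] [Module A M] (c : K0 A),
    EC A n M c → EC A (n + 1) M c) ∧
  (∀ (A : Type) [Ring A] (n : ℕ) (M : Type) [AddCommGroup M] [Module A M] (c : K0 A),
    EC A n M c → ∀ e : Idem A, EC A n (M × W e) (c + cls e)) ∧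
  (∀ (A : Type) [Ring A] (n : ℕ) (M : Type) [AddCommGroup M] [Module A M],
    PD A n M → ∃ c, EC A n M c)

/-- ECB (`t_ECB : S_ECA → S_ECB`): the Euler characteristic is well defined. (Make the lengths equal
by (2) of `S_ECA`; induction on the length with Schanuel: `ker π × A^k' ≅ ker π' × A^k`, where
`A^k ≅ W (fr A k)`.) -/
def S_ECB : Prop :=
  ∀ (A : Type) [Ring A] (n m : ℕ) (M : Type) [AddCommGroup M] [Module A M] (c c' : K0 A),
    EC A n M c → EC A m M c' → c = c'

/-- PEX (`t_PEX : S_PEX`): isomorphic modules, longer resolutions, extensions (horseshoe) -/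
def S_PEX : Prop :=
  (∀ (A : Type) [Ring A] (n : ℕ) (M N : Type) [AddCommGroup M] [Module A M] [AddCommGroup N]
    [Module A N], Nonempty (M ≃ₗ[A] N) → PD A n M → PD A n N) ∧
  (∀ (A : Type) [Ring A] (n : ℕ) (M : Type) [AddCommGroup M] [Module A M],
    PD A n M → PD A (n + 1) M) ∧
  (∀ (A : Type) [Ring A] (n : ℕ) (M' M M'' : Type) [AddCommGroup M'] [Module A M']
    [AddCommGroup M] [Module A M] [AddCommGroup M''] [Module A M''] (f : M' →ₗ[A] M)
    (g : M →ₗ[A] M''), Function.Injective f → Function.Surjective g →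
    LinearMap.range f = LinearMap.ker g → PD A n M' → PD A n M'' → PD A n M)

/-- IND (`t_IND : S_IND`): induced modules. (`Ind F (Aᵏ) ≅ A[F]ᵏ`; `Ind` is exact; induction on `n`
with `Ind F (ker π) ≅ ker (Ind π)`; for `n = 0`: `Ind F (W e) ≅ W (e.map (io A F))`, both are the
image of the matrix on `A[F]ᵏ`. (4) is the universal property.) -/
def S_IND : Prop :=
  (∀ (A F : Type) [Ring A] [Group F] (n : ℕ) (N : Type) [AddCommGroup N] [Module A N],
    PD A n N → PD (MonoidAlgebra A F) n (Ind F N)) ∧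
  (∀ (A F : Type) [Ring A] [Group F] (n : ℕ) (N : Type) [AddCommGroup N] [Module A N] (c : K0 A),
    EC A n N c → EC (MonoidAlgebra A F) n (Ind F N) (K0.map (io A F) c)) ∧
  (∀ (A F : Type) [Ring A] [Group F] (N : Type) [AddCommGroup N] [Module A N],
    Module.Finite A N → Module.Finite (MonoidAlgebra A F) (Ind F N)) ∧
  (∀ (A F : Type) [Ring A] [Group F] (N : Type) [AddCommGroup N] [Module A N] (X : Type)
    [AddCommGroup X] [Module (MonoidAlgebra A F) X] (h : N →+ X),
    (∀ (a : A) (x : N), h (a • x) = io A F a • h x) →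
    ∃ g : Ind F N →ₗ[MonoidAlgebra A F] X, ∀ (w : F) (x : N),
      g (ten w x) = (MonoidAlgebra.single w 1 : MonoidAlgebra A F) • h x)

/-- TRA (`t_TRA : S_TRA`): the boundary map of the Cayley tree of a free group is injective, with
twisted coefficients. (If `x ≠ 0` let `v` be an end point of maximal length of the edges
`w — w s` in the support of `x`. Only one edge at `v` goes to a shorter vertex, the other ones are not
in the support, and the equation at `v` shows that the coefficient of this edge is zero.) -/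
def S_TRA : Prop :=
  ∀ (n : ℕ) (M : Type) [AddCommGroup M] (σ : FreeGroup (Fin n) →* AddMonoid.End M)
    (x : FreeGroup (Fin n) × Fin n →₀ M),
    (∀ v, ∑ s, x (v * (FreeGroup.of s)⁻¹, s) = ∑ s, σ (FreeGroup.of s) (x (v, s))) → x = 0

/-- TRE (`t_TRE : S_TRA → S_IND → S_TRE`): finitely presented modules over `A[F]`, `F` free, `A` left
Noetherian.

Sketch. `M` is an `A`-module by `io`. For an `A`-submodule `N` of `M` put
`N_s = {x ∈ N | s x ∈ N}`, `N₀ = N`, `N₁ = ∀ s, N_s`, `f (w ⊗ (x_s)) = ∑ s, (w s ⊗ x_s - w ⊗ s x_s)`,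
`g (w ⊗ x) = w x`. `f` is injective by `S_TRA` for every `N`, and `g f = 0`. Choose `N'` finitely
generated which generates `M` over `A[F]`. The kernel of `Ind F N' → M` is finitely generated (`M` is
finitely presented, `Ind F N'` finite), so its generators are sums of `w ⊗ x` with `x ∈ N'` and `w` in
a ball `B` of radius `r` (word length). Let `N = ∑_{b ∈ B} b N'`. Modulo the image of `f` one has
`b ⊗ x = 1 ⊗ b x` for `b ∈ B`, `x ∈ N'` (induction on the length: for `b = b' s` reduced and
`x ∈ N'` pass from `b' s ⊗ y` to `b' ⊗ s y`, where `y = c x`, `c` the rest of the word, lies in `N`,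
as do all suffixes applied to `x`). Let `z = ∑ w_i ⊗ y_i ∈ ker g` (`y_i ∈ N`), modulo the image of
`f` it is a sum of `w b ⊗ x`, `x ∈ N'`, so it comes from the kernel of `Ind F N' → M`, whose
generators `∑ b ⊗ x_b` are `1 ⊗ ∑ b x_b = 0` modulo the image of `f`. -/
def S_TRE : Prop :=
  ∀ (A : Type) [Ring A], IsNoetherianRing A → ∀ (n : ℕ) (M : Type) [AddCommGroup M]
    [Module (MonoidAlgebra A (FreeGroup (Fin n))) M],
    Module.FinitePresentation (MonoidAlgebra A (FreeGroup (Fin n))) M →
    ∃ (N₀ N₁ : Type) (_ : AddCommGroup N₀) (_ : AddCommGroup N₁) (_ : Module A N₀)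
      (_ : Module A N₁) (_ : Module.Finite A N₀) (_ : Module.Finite A N₁)
      (f : Ind (FreeGroup (Fin n)) N₁ →ₗ[MonoidAlgebra A (FreeGroup (Fin n))]
        Ind (FreeGroup (Fin n)) N₀)
      (g : Ind (FreeGroup (Fin n)) N₀ →ₗ[MonoidAlgebra A (FreeGroup (Fin n))] M),
      Function.Injective f ∧ Function.Surjective g ∧ LinearMap.range f = LinearMap.ker g

/-- K0S (`t_K0S : S_ECA → S_ECB → S_IND → S_TRE → S_K0S`): for a regular ring `A` all projective
`A[F]`-modules have classes from `A`. (For `M = W p` the sequence of `S_TRE` splits: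
`Ind N₀ ≅ Ind N₁ × W p`; compare the Euler characteristics. `exists_sub` in `Y75/NK/Thm`.) -/
def S_K0S : Prop :=
  ∀ (A : Type) [Ring A], Reg A → ∀ n : ℕ, Function.Surjective (K0.map (io A (FreeGroup (Fin n))))

/-- NOE (`t_NOE : S_NOE`): Hilbert's basis theorem, `A` noncommutative -/
def S_NOE : Prop :=
  ∀ (A : Type) [Ring A], IsNoetherianRing A → IsNoetherianRing (MonoidAlgebra A (Multiplicative ℤ))

/-- RIS (`t_RIS : S_RIS`) -/
def S_RIS : Prop := ∀ (A B : Type) [Ring A] [Ring B], Nonempty (A ≃+* B) → Reg A → Reg B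

/-- RGZ (`t_RGZ : S_PEX → S_IND → S_TRE → S_NOE → S_RIS → S_RGZ`): `A[t, t⁻¹]` is regular. (For the
free group with one generator: in the sequence of `S_TRE` both induced modules have finite
resolutions; compose `A[F]ᵏ → Ind N₀ → M`, its kernel is an extension of `Ind N₁` by the kernel of the
first map.) -/
def S_RGZ : Prop :=
  ∀ (A : Type) [Ring A], Reg A → Reg (MonoidAlgebra A (Multiplicative ℤ))

/-- KNR (`t_KNR : S_K0S → S_RGZ → S_KNR`). (Induction on `m`: `K_{-(m+1)}(A)` is a quotient of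
`K_{-m}(A[t, t⁻¹])`; for `m = 0` all classes over `A[t, t⁻¹]` come from `A`, hence from `A[t]`, so
they are in `polySub`; `FreeGroup (Fin 1) ≃* Multiplicative ℤ`.) -/
def S_KNR : Prop :=
  ∀ (A : Type) [Ring A], Reg A → ∀ (m : ℕ) (x : (Kneg (m + 1)).obj (RingCat.of A)), x = 0

/-- KNF (`t_KNF : S_K0S → S_RGZ → S_KNF`). (Induction on `m`, with
`A[F][t, t⁻¹] ≅ A[t, t⁻¹][F]`; for `m = 0` all classes over this ring come from `A` by `S_K0S`
twice.) -/
def S_KNF : Prop :=
  ∀ (A : Type) [Ring A], Reg A → ∀ (n m : ℕ)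
    (x : (Kneg (m + 1)).obj (RingCat.of (MonoidAlgebra A (FreeGroup (Fin n))))), x = 0

/-- RGA (`t_RGA : S_RGZ → S_RIS → S_RGA`): group rings of finitely generated torsion-free abelian
groups are regular. (`P ≅ ℤʳ`, induction on `r`, `MonoidAlgebra.curryRingEquiv`.) -/
def S_RGA : Prop :=
  ∀ (R : Type) [Ring R], Reg R → ∀ (P : Type) [Group P], (∀ a b : P, a * b = b * a) →
    (∀ g : P, ∀ k : ℕ, 0 < k → g ^ k = 1 → g = 1) → Group.FG P → Reg (MonoidAlgebra R P)

/-- KTA (`t_KTA : S_KNR → S_RGA → (∀ m, FC (Kneg m)) → S_GRC → S_KTA`): all torsion-free abelian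
groups. (An element of `K_{-m-1}(R[P])` is a difference of classes of idempotent matrices over
`R[ℤᵐ⁺¹ × P]`, which involve only finitely many elements of `P`, so they come from a finitely
generated subgroup `H`: `Pool.Agent.L0h36.SS.t_SUBG` with `Pool.Agent.L0h26.SS.t_PUSH`, or
`Pool.Agent.L0h6.KN.t_REP`. No continuity is needed in this way.) -/
def S_KTA : Prop :=
  ∀ (R : Type) [Ring R], Reg R → ∀ P : GrpCat.{0}, (∀ a b : P, a * b = b * a) → TFr P →
    ∀ (m : ℕ) (x : (Kneg (m + 1)).obj ((gr R).obj P)), x = 0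

end Pool.Agent.L0h7.RG
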